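import Mathlib

/-!
# Extremal order for neighbor-locating colourings with bounded maximum degree
-/

namespace Pool.Agent.Results.MP_3eb9f6_co.ExtremalOrder

open Finset

/-- `c` is a neighbor-locating colouring of `G` with `k` colours (all used): it is proper and two
distinct vertices of the same colour have different sets of colours in their neighbourhoods. -/
def IsNLColouring {V : Type*} (G : SimpleGraph V) {k : ℕ} (c : V → Fin k) : Prop :=
  Function.Surjective c ∧ (∀ u v, G.Adj u v → c u ≠ c v) ∧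
    ∀ u v, u ≠ v → c u = c v → c '' G.neighborSet u ≠ c '' G.neighborSet v

/-- The neighbor-locating chromatic number. -/
noncomputable def nlChromaticNumber {V : Type*} (G : SimpleGraph V) : ℕ :=
  sInf {k : ℕ | ∃ c : V → Fin k, IsNLColouring G c}

/-- The bound `B(k, Δ) = ∑_{j=1}^{Δ} k * binom (k-1) j`. -/
def B (k Δ : ℕ) : ℕ := ∑ j ∈ Finset.Icc 1 Δ, k * (k - 1).choose j

/-! ## Counting types -/

/-- The types `(i, S)` with `i ∉ S` and `1 ≤ |S| ≤ Δ`. -/
def types (k Δ : ℕ) : Finset (Fin k × Finset (Fin k)) :=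
  univ.filter (fun x => x.1 ∉ x.2 ∧ 1 ≤ x.2.card ∧ x.2.card ≤ Δ)

lemma card_types (k Δ : ℕ) : (types k Δ).card = B k Δ := by
  classical
  have h1 : types k Δ = (univ : Finset (Fin k)).biUnion (fun i =>
      ((Finset.Icc 1 Δ).biUnion (fun j => (univ.erase i).powersetCard j)).image
        (fun S => (i, S))) := by
    ext ⟨i, S⟩
    simp only [types, mem_filter, mem_univ, true_and, mem_biUnion, mem_image, Prod.mk.injEq,
      mem_powersetCard, mem_Icc]
    constructor
    · rintro ⟨h1, h2, h3⟩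
      refine ⟨i, S, ⟨S.card, ⟨h2, h3⟩, ?_, rfl⟩, rfl, rfl⟩
      intro x hx
      rw [mem_erase]
      exact ⟨fun h => h1 (h ▸ hx), mem_univ x⟩
    · rintro ⟨i', S', ⟨j, hj, hS, rfl⟩, rfl, rfl⟩
      refine ⟨fun h => ?_, hj.1, hj.2⟩
      have := hS h
      simp at this
  rw [h1, card_biUnion]
  · have h2 : ∀ i ∈ (univ : Finset (Fin k)),
        (((Finset.Icc 1 Δ).biUnion (fun j => (univ.erase i).powersetCard j)).image
          (fun S => (i, S))).card = ∑ j ∈ Finset.Icc 1 Δ, (k - 1).choose j := by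
      intro i _
      rw [card_image_of_injective _ (Prod.mk_right_injective i), card_biUnion]
      · refine sum_congr rfl fun j _ => ?_
        rw [card_powersetCard, card_erase_of_mem (mem_univ i), card_univ, Fintype.card_fin]
      · intro j _ j' _ hjj
        rw [Function.onFun, disjoint_left]
        intro S hS hS'
        rw [mem_powersetCard] at hS hS'
        exact hjj (hS.2.symm.trans hS'.2)
    rw [sum_congr rfl h2, sum_const, card_univ, Fintype.card_fin, smul_eq_mul, B, mul_sum]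
  · intro i _ i' _ hii
    rw [Function.onFun, disjoint_left]
    rintro ⟨a, S⟩ h h'
    simp only [mem_image, Prod.mk.injEq] at h h'
    obtain ⟨_, _, h, _⟩ := h
    obtain ⟨_, _, h', _⟩ := h'
    exact hii (h.trans h'.symm)

lemma B_strict {m k Δ : ℕ} (hmk : m < k) (hΔ : 1 ≤ Δ) (hk : 2 ≤ k) : B m Δ < B k Δ := by
  unfold B
  refine sum_lt_sum (fun j _ => ?_) ⟨1, by simp [hΔ], ?_⟩
  · exact Nat.mul_le_mul hmk.le (Nat.choose_le_choose j (by omega))
  · rw [Nat.choose_one_right, Nat.choose_one_right]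
    rcases Nat.eq_zero_or_pos m with rfl | hm
    · simp
      omega
    · exact Nat.mul_lt_mul_of_lt_of_le hmk (by omega) (by omega)

/-! ## The construction -/

variable (k Δ : ℕ)

/-- The sets whose two smallest elements are `i < j`. -/
def Cl (i j : Fin k) : Finset (Finset (Fin k)) :=
  univ.filter (fun U => i ∈ U ∧ j ∈ U ∧ (∀ x ∈ U, x = i ∨ j ≤ x) ∧ U.card ≤ Δ + 1)

/-- A cyclic permutation of `Cl i j`. -/
noncomputable def g (i j : Fin k) : Equiv.Perm (Finset (Fin k)) :=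
  (Finset.exists_cycleOn (Cl k Δ i j)).choose

lemma g_cycle (i j : Fin k) : (g k Δ i j).IsCycleOn (Cl k Δ i j) :=
  (Finset.exists_cycleOn (Cl k Δ i j)).choose_spec.1

lemma g_fix {i j : Fin k} {U : Finset (Fin k)} (h : U ∉ Cl k Δ i j) : g k Δ i j U = U := by
  by_contra hne
  exact h ((Finset.exists_cycleOn (Cl k Δ i j)).choose_spec.2 (Equiv.Perm.mem_support.2 hne))

lemma g_mem {i j : Fin k} {U : Finset (Fin k)} : g k Δ i j U ∈ Cl k Δ i j ↔ U ∈ Cl k Δ i j := by
  have := (g_cycle k Δ i j).apply_mem_iff (x := U)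
  simpa using this

lemma mem_Cl {i j : Fin k} {U : Finset (Fin k)} : U ∈ Cl k Δ i j ↔
    i ∈ U ∧ j ∈ U ∧ (∀ x ∈ U, x = i ∨ j ≤ x) ∧ U.card ≤ Δ + 1 := by
  simp [Cl]

/-- Vertices: a colour together with a set containing it. -/
def Good (x : Fin k × Finset (Fin k)) : Prop := x.1 ∈ x.2 ∧ 2 ≤ x.2.card ∧ x.2.card ≤ Δ + 1

instance : DecidablePred (Good k Δ) := fun x => by unfold Good; infer_instance

lemma g_good {i j : Fin k} (hij : i < j) {U : Finset (Fin k)} (hi : i ∈ U) (hj : j ∈ U)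
    (hc : U.card ≤ Δ + 1) :
    i ∈ g k Δ i j U ∧ j ∈ g k Δ i j U ∧ 2 ≤ (g k Δ i j U).card ∧
      (g k Δ i j U).card ≤ Δ + 1 := by
  have two : ∀ U' : Finset (Fin k), i ∈ U' → j ∈ U' → 2 ≤ U'.card := by
    intro U' h1 h2
    have : ({i, j} : Finset (Fin k)) ⊆ U' := by
      intro x hx
      rw [mem_insert, mem_singleton] at hx
      rcases hx with rfl | rfl <;> assumption
    have h3 := card_le_card this
    rwa [card_pair hij.ne] at h3
  by_cases h : U ∈ Cl k Δ i j
  · have h' := (g_mem k Δ).2 h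
    rw [mem_Cl] at h'
    exact ⟨h'.1, h'.2.1, two _ h'.1 h'.2.1, h'.2.2.2⟩
  · rw [g_fix k Δ h]
    exact ⟨hi, hj, two _ hi hj, hc⟩

lemma g_good_inv {i j : Fin k} (hij : i < j) {U : Finset (Fin k)} (hi : i ∈ U) (hj : j ∈ U)
    (hc : U.card ≤ Δ + 1) :
    i ∈ (g k Δ i j).symm U ∧ j ∈ (g k Δ i j).symm U ∧ 2 ≤ ((g k Δ i j).symm U).card ∧
      ((g k Δ i j).symm U).card ≤ Δ + 1 := by
  have two : ∀ U' : Finset (Fin k), i ∈ U' → j ∈ U' → 2 ≤ U'.card := by
    intro U' h1 h2
    have : ({i, j} : Finset (Fin k)) ⊆ U' := by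
      intro x hx
      rw [mem_insert, mem_singleton] at hx
      rcases hx with rfl | rfl <;> assumption
    have h3 := card_le_card this
    rwa [card_pair hij.ne] at h3
  by_cases h : U ∈ Cl k Δ i j
  · have h' : (g k Δ i j).symm U ∈ Cl k Δ i j := by
      rw [← g_mem, Equiv.apply_symm_apply]; exact h
    rw [mem_Cl] at h'
    exact ⟨h'.1, h'.2.1, two _ h'.1 h'.2.1, h'.2.2.2⟩
  · have : (g k Δ i j).symm U = U := by
      rw [Equiv.symm_apply_eq, g_fix k Δ h]
    rw [this]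
    exact ⟨hi, hj, two _ hi hj, hc⟩

/-- Base edges. -/
def base (x y : Fin k × Finset (Fin k)) : Prop :=
  x.1 < y.1 ∧ y.1 ∈ x.2 ∧ y.2 = g k Δ x.1 y.1 x.2

/-- Extra edges of the first kind. -/
def ex1 (z : Fin k) (x y : Fin k × Finset (Fin k)) : Prop :=
  z < x.1 ∧ x.1 < y.1 ∧ x.2 = {z, x.1, y.1} ∧ y.2 = {x.1, y.1}

/-- Extra edges of the second kind. -/
def ex2 (z o : Fin k) (x y : Fin k × Finset (Fin k)) : Prop :=
  x.1 = z ∧ z < o ∧ o < y.1 ∧ x.2 = {z, o, y.1} ∧ y.2 = {z, y.1}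

/-- Adjacency. -/
def adj (z o : Fin k) (x y : Fin k × Finset (Fin k)) : Prop :=
  base k Δ x y ∨ base k Δ y x ∨ ex1 k z x y ∨ ex1 k z y x ∨ ex2 k z o x y ∨ ex2 k z o y x

lemma adj_symm {z o : Fin k} {x y : Fin k × Finset (Fin k)} (h : adj k Δ z o x y) :
    adj k Δ z o y x := by
  unfold adj at *
  tauto

lemma adj_ne {z o : Fin k} {x y : Fin k × Finset (Fin k)} (h : adj k Δ z o x y) :
    x.1 ≠ y.1 := by
  rcases h with h | h | h | h | h | h
  · exact h.1.ne
  · exact h.1.ne'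
  · exact h.2.1.ne
  · exact h.2.1.ne'
  · rw [h.1]; exact (h.2.1.trans h.2.2.1).ne
  · rw [h.1]; exact (h.2.1.trans h.2.2.1).ne'

/-- The graph. -/
def Gr (z o : Fin k) : SimpleGraph {x : Fin k × Finset (Fin k) // Good k Δ x} where
  Adj x y := adj k Δ z o x.1 y.1
  symm := ⟨fun _ _ h => adj_symm k Δ h⟩
  loopless := ⟨fun _ h => adj_ne k Δ h rfl⟩

/-- Neighbours have colours in the set. -/
lemma adj_mem {z o : Fin k} {x y : Fin k × Finset (Fin k)} (hx : Good k Δ x) (hy : Good k Δ y)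
    (h : adj k Δ z o x y) : y.1 ∈ x.2 := by
  rcases h with h | h | h | h | h | h
  · exact h.2.1
  · obtain ⟨h1, h2, h3⟩ := h
    rw [h3]
    exact (g_good k Δ h1 hy.1 h2 hy.2.2).1
  · rw [h.2.2.1]; simp
  · rw [h.2.2.2]; simp
  · rw [h.2.2.2.1]; simp
  · rw [h.2.2.2.2, h.1]; simp

/-- Every colour of the set other than the own colour occurs on a neighbour. -/
lemma exists_nb {z o : Fin k} {x : Fin k × Finset (Fin k)} (hx : Good k Δ x) {j : Fin k}
    (hj : j ∈ x.2) (hne : j ≠ x.1) : ∃ y, Good k Δ y ∧ adj k Δ z o x y ∧ y.1 = j := by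
  rcases lt_or_gt_of_ne hne with h | h
  · obtain ⟨h1, h2, h3, h4⟩ := g_good_inv k Δ h hj hx.1 hx.2.2
    refine ⟨(j, (g k Δ j x.1).symm x.2), ⟨h1, h3, h4⟩, Or.inr (Or.inl ⟨h, h2, ?_⟩), rfl⟩
    simp
  · obtain ⟨h1, h2, h3, h4⟩ := g_good k Δ h hx.1 hj hx.2.2
    exact ⟨(j, g k Δ x.1 j x.2), ⟨h2, h3, h4⟩, Or.inl ⟨h, hj, rfl⟩, rfl⟩

lemma colours_eq {z o : Fin k} (x : {x : Fin k × Finset (Fin k) // Good k Δ x}) :
    (fun y : {x : Fin k × Finset (Fin k) // Good k Δ x} => y.1.1) ''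
      (Gr k Δ z o).neighborSet x = ((x.1.2.erase x.1.1 : Finset (Fin k)) : Set (Fin k)) := by
  ext j
  simp only [Set.mem_image, SimpleGraph.mem_neighborSet, coe_erase, Set.mem_sdiff, mem_coe,
    Set.mem_singleton_iff]
  constructor
  · rintro ⟨y, hy, rfl⟩
    exact ⟨adj_mem k Δ x.2 y.2 hy, (adj_ne k Δ hy).symm⟩
  · rintro ⟨h1, h2⟩
    obtain ⟨y, hy, hxy, rfl⟩ := exists_nb k Δ (z := z) (o := o) x.2 h1 h2
    exact ⟨⟨y, hy⟩, hxy, rfl⟩

lemma card3 {z i j : Fin k} (h1 : z < i) (h2 : i < j) : ({z, i, j} : Finset (Fin k)).card = 3 := by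
  rw [card_insert_of_notMem, card_pair h2.ne]
  rw [mem_insert, mem_singleton]
  rintro (h | h)
  · exact h1.ne h
  · exact (h1.trans h2).ne h

/-- The extra neighbour is unique. -/
lemma ex_unique {z o : Fin k} {x y y' : Fin k × Finset (Fin k)}
    (h : ex1 k z x y ∨ ex1 k z y x ∨ ex2 k z o x y ∨ ex2 k z o y x)
    (h' : ex1 k z x y' ∨ ex1 k z y' x ∨ ex2 k z o x y' ∨ ex2 k z o y' x) : y = y' := by
  have c3 : ∀ {w w' : Fin k × Finset (Fin k)}, (ex1 k z w w' ∨ ex2 k z o w w') →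
      w.2.card = 3 ∧ w'.2.card = 2 := by
    rintro w w' (⟨h1, h2, h3, h4⟩ | ⟨h1, h2, h3, h4, h5⟩)
    · rw [h3, h4]
      exact ⟨card3 k h1 h2, card_pair h2.ne⟩
    · rw [h4, h5]
      exact ⟨card3 k h2 h3, card_pair (h2.trans h3).ne⟩
  rcases h with h | h | h | h <;> rcases h' with h' | h' | h' | h'
  · -- ex1 x y, ex1 x y'
    obtain ⟨h1, h2, h3, h4⟩ := h
    obtain ⟨h1', h2', h3', h4'⟩ := h'
    have : y.1 ∈ ({z, x.1, y'.1} : Finset (Fin k)) := by rw [← h3', h3]; simp
    rw [mem_insert, mem_insert, mem_singleton] at this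
    rcases this with h5 | h5 | h5
    · exact absurd h5 (h1.trans h2).ne'
    · exact absurd h5 h2.ne'
    · exact Prod.ext h5 (by rw [h4, h4', h5])
  · have := (c3 (Or.inl h)).1; have := (c3 (Or.inl h')).2; omega
  · obtain ⟨h1, h2, h3, h4⟩ := h
    exact absurd h'.1 h1.ne'
  · have := (c3 (Or.inl h)).1; have := (c3 (Or.inr h')).2; omega
  · have := (c3 (Or.inl h)).2; have := (c3 (Or.inl h')).1; omega
  · -- ex1 y x, ex1 y' x
    obtain ⟨h1, h2, h3, h4⟩ := h
    obtain ⟨h1', h2', h3', h4'⟩ := h'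
    have : y.1 ∈ ({y'.1, x.1} : Finset (Fin k)) := by rw [← h4', h4]; simp
    rw [mem_insert, mem_singleton] at this
    rcases this with h5 | h5
    · exact Prod.ext h5 (by rw [h3, h3', h5])
    · exact absurd h5 h2.ne
  · have := (c3 (Or.inl h)).2; have := (c3 (Or.inr h')).1; omega
  · -- ex1 y x, ex2 y' x
    obtain ⟨h1, h2, h3, h4⟩ := h
    obtain ⟨h1', h2', h3', h4', h5'⟩ := h'
    have : z ∈ ({y.1, x.1} : Finset (Fin k)) := by rw [← h4, h5']; simp
    rw [mem_insert, mem_singleton] at this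
    rcases this with h5 | h5
    · exact absurd h5 h1.ne
    · exact absurd h5 (h1.trans h2).ne
  · exact absurd h.1 h'.1.ne'
  · have := (c3 (Or.inr h)).1; have := (c3 (Or.inl h')).2; omega
  · -- ex2 x y, ex2 x y'
    obtain ⟨h1, h2, h3, h4, h5⟩ := h
    obtain ⟨h1', h2', h3', h4', h5'⟩ := h'
    have : y.1 ∈ ({z, o, y'.1} : Finset (Fin k)) := by rw [← h4', h4]; simp
    rw [mem_insert, mem_insert, mem_singleton] at this
    rcases this with h6 | h6 | h6
    · exact absurd h6 (h2.trans h3).ne'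
    · exact absurd h6 h3.ne'
    · exact Prod.ext h6 (by rw [h5, h5', h6])
  · have := (c3 (Or.inr h)).1; have := (c3 (Or.inr h')).2; omega
  · have := (c3 (Or.inr h)).2; have := (c3 (Or.inl h')).1; omega
  · -- ex2 y x, ex1 y' x
    obtain ⟨h1, h2, h3, h4, h5⟩ := h
    obtain ⟨h1', h2', h3', h4'⟩ := h'
    have : z ∈ ({y'.1, x.1} : Finset (Fin k)) := by rw [← h4', h5]; simp
    rw [mem_insert, mem_singleton] at this
    rcases this with h6 | h6
    · exact absurd h6 h1'.ne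
    · exact absurd h6 (h1'.trans h2').ne
  · have := (c3 (Or.inr h)).2; have := (c3 (Or.inr h')).1; omega
  · obtain ⟨h1, h2, h3, h4, h5⟩ := h
    obtain ⟨h1', h2', h3', h4', h5'⟩ := h'
    exact Prod.ext (h1.trans h1'.symm) (by rw [h4, h4'])

lemma ex_card {z o : Fin k} {x y : Fin k × Finset (Fin k)}
    (h : ex1 k z x y ∨ ex1 k z y x ∨ ex2 k z o x y ∨ ex2 k z o y x) : x.2.card ≤ 3 := by
  rcases h with ⟨h1, h2, h3, h4⟩ | ⟨h1, h2, h3, h4⟩ | ⟨h1, h2, h3, h4, h5⟩ |
    ⟨h1, h2, h3, h4, h5⟩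
  · rw [h3, card3 k h1 h2]
  · rw [h4, card_pair h2.ne]; omega
  · rw [h4, card3 k h2 h3]
  · rw [h5, card_pair (h2.trans h3).ne]; omega

/-! ## Degrees -/

open Classical in
lemma degree_le (hΔ : 3 ≤ Δ) {z o : Fin k} (x : {x : Fin k × Finset (Fin k) // Good k Δ x}) :
    (Gr k Δ z o).degree x ≤ Δ := by
  let nbf : Fin k → Fin k × Finset (Fin k) := fun j =>
    if x.1.1 < j then (j, g k Δ x.1.1 j x.1.2) else (j, (g k Δ j x.1.1).symm x.1.2)
  let E : Finset (Fin k × Finset (Fin k)) := univ.filter (fun y =>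
    ex1 k z x.1 y ∨ ex1 k z y x.1 ∨ ex2 k z o x.1 y ∨ ex2 k z o y x.1)
  have hsub : ((Gr k Δ z o).neighborFinset x).image Subtype.val ⊆
      ((x.1.2.erase x.1.1).image nbf) ∪ E := by
    intro y hy
    rw [mem_image] at hy
    obtain ⟨⟨y, hyg⟩, hy, rfl⟩ := hy
    rw [SimpleGraph.mem_neighborFinset] at hy
    have hy' : adj k Δ z o x.1 y := hy
    rw [mem_union]
    rcases hy' with h | h | h | h | h | h
    · left
      rw [mem_image]
      refine ⟨y.1, ?_, ?_⟩
      · rw [mem_erase]; exact ⟨h.1.ne', h.2.1⟩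
      · simp only [nbf, if_pos h.1]
        rw [← h.2.2]
    · left
      rw [mem_image]
      refine ⟨y.1, ?_, ?_⟩
      · rw [mem_erase]
        exact ⟨h.1.ne, adj_mem k Δ x.2 hyg hy⟩
      · simp only [nbf, if_neg (not_lt.2 h.1.le)]
        rw [h.2.2, Equiv.symm_apply_apply]
    · right; simp only [E, mem_filter, mem_univ, true_and]; tauto
    · right; simp only [E, mem_filter, mem_univ, true_and]; tauto
    · right; simp only [E, mem_filter, mem_univ, true_and]; tauto
    · right; simp only [E, mem_filter, mem_univ, true_and]; tauto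
  have h1 := card_le_card hsub
  rw [card_image_of_injective _ Subtype.val_injective] at h1
  have h2 := card_union_le ((x.1.2.erase x.1.1).image nbf) E
  have h3 : ((x.1.2.erase x.1.1).image nbf).card ≤ x.1.2.card - 1 := by
    refine le_trans card_image_le ?_
    rw [card_erase_of_mem x.2.1]
  have h4 : E.card ≤ 1 := by
    rw [card_le_one]
    intro y hy y' hy'
    simp only [E, mem_filter, mem_univ, true_and] at hy hy'
    exact ex_unique k hy hy'
  have h5 := x.2.2
  have h6 : (Gr k Δ z o).degree x = ((Gr k Δ z o).neighborFinset x).card := rfl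
  rcases Finset.eq_empty_or_nonempty E with hE | ⟨y, hy⟩
  · have h8 : E.card = 0 := by rw [hE, card_empty]
    omega
  · simp only [E, mem_filter, mem_univ, true_and] at hy
    have h7 := ex_card k hy
    omega

open Classical in
lemma le_degree {z o : Fin k} (x : {x : Fin k × Finset (Fin k) // Good k Δ x}) :
    x.1.2.card - 1 ≤ (Gr k Δ z o).degree x := by
  have h1 : ((Gr k Δ z o).neighborFinset x).image (fun y => y.1.1) = x.1.2.erase x.1.1 := by
    apply Finset.coe_injective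
    rw [← colours_eq k Δ (z := z) (o := o) x, coe_image, SimpleGraph.coe_neighborFinset]
  have h2 : x.1.2.card - 1 = (x.1.2.erase x.1.1).card := by
    rw [card_erase_of_mem x.2.1]
  rw [h2, ← h1]
  exact card_image_le

/-! ## Connectivity -/

/-- Reachability, stated for pairs. -/
def Rch (z o : Fin k) (x y : Fin k × Finset (Fin k)) : Prop :=
  ∃ (hx : Good k Δ x) (hy : Good k Δ y), (Gr k Δ z o).Reachable ⟨x, hx⟩ ⟨y, hy⟩

variable {k Δ}

lemma Rch.refl {z o : Fin k} {x : Fin k × Finset (Fin k)} (hx : Good k Δ x) :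
    Rch k Δ z o x x := ⟨hx, hx, SimpleGraph.Reachable.refl _⟩

lemma Rch.symm {z o : Fin k} {x y : Fin k × Finset (Fin k)} (h : Rch k Δ z o x y) :
    Rch k Δ z o y x := by
  obtain ⟨hx, hy, h⟩ := h
  exact ⟨hy, hx, h.symm⟩

lemma Rch.trans {z o : Fin k} {x y w : Fin k × Finset (Fin k)} (h : Rch k Δ z o x y)
    (h' : Rch k Δ z o y w) : Rch k Δ z o x w := by
  obtain ⟨hx, hy, h⟩ := h
  obtain ⟨hy', hw, h'⟩ := h'
  exact ⟨hx, hw, h.trans h'⟩

lemma Rch.of_adj {z o : Fin k} {x y : Fin k × Finset (Fin k)} (hx : Good k Δ x)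
    (hy : Good k Δ y) (h : adj k Δ z o x y) : Rch k Δ z o x y :=
  ⟨hx, hy, SimpleGraph.Adj.reachable h⟩

lemma cluster_lt {z o : Fin k} {U : Finset (Fin k)} (h3 : 3 ≤ U.card) (hc : U.card ≤ Δ + 1)
    {i j : Fin k} (hi : i ∈ U) (hj : j ∈ U) (hij : i < j) : Rch k Δ z o (i, U) (j, U) := by
  have hgood : ∀ m ∈ U, Good k Δ (m, U) := fun m hm => ⟨hm, by simp only; omega, hc⟩
  have hedge : ∀ a b, a ∈ U → b ∈ U → a < b → U ∉ Cl k Δ a b →
      Rch k Δ z o (a, U) (b, U) := by
    intro a b ha hb hab hU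
    refine Rch.of_adj (hgood a ha) (hgood b hb) (Or.inl ⟨hab, hb, ?_⟩)
    exact (g_fix k Δ hU).symm
  by_cases hU : U ∈ Cl k Δ i j
  · obtain ⟨m, hm, hmi, hmj⟩ : ∃ m ∈ U, m ≠ i ∧ m ≠ j := by
      have h4 : 0 < ((U.erase i).erase j).card := by
        rw [card_erase_of_mem (by rw [mem_erase]; exact ⟨hij.ne', hj⟩), card_erase_of_mem hi]
        omega
      obtain ⟨m, hm⟩ := card_pos.1 h4
      rw [mem_erase, mem_erase] at hm
      exact ⟨m, hm.2.2, hm.2.1, hm.1⟩
    have hU' := (mem_Cl k Δ).1 hU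
    have hjm : j < m := by
      rcases hU'.2.2.1 m hm with h | h
      · exact absurd h hmi
      · exact lt_of_le_of_ne h (Ne.symm hmj)
    have e1 := hedge i m hi hm (hij.trans hjm) (by
      intro h
      rcases ((mem_Cl k Δ).1 h).2.2.1 j hj with h5 | h5
      · exact hij.ne' h5
      · exact absurd h5 (not_le.2 hjm))
    have e2 := hedge j m hj hm hjm (by
      intro h
      rcases ((mem_Cl k Δ).1 h).2.2.1 i hi with h5 | h5
      · exact hij.ne h5
      · exact absurd h5 (not_le.2 (hij.trans hjm)))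
    exact e1.trans e2.symm
  · exact hedge i j hi hj hij hU

lemma cluster {z o : Fin k} {U : Finset (Fin k)} (h3 : 3 ≤ U.card) (hc : U.card ≤ Δ + 1)
    {i j : Fin k} (hi : i ∈ U) (hj : j ∈ U) : Rch k Δ z o (i, U) (j, U) := by
  rcases lt_trichotomy i j with h | h | h
  · exact cluster_lt h3 hc hi hj h
  · subst h
    exact Rch.refl ⟨hi, by simp only; omega, hc⟩
  · exact (cluster_lt h3 hc hj hi h).symm

lemma pair_mem_Cl (hΔ : 1 ≤ Δ) {i j : Fin k} (hij : i < j) :
    ({i, j} : Finset (Fin k)) ∈ Cl k Δ i j := by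
  rw [mem_Cl]
  refine ⟨by simp, by simp, ?_, by rw [card_pair hij.ne]; omega⟩
  intro x hx
  rw [mem_insert, mem_singleton] at hx
  rcases hx with h | h
  · exact Or.inl h
  · exact Or.inr h.ge

lemma good_of_Cl {i j : Fin k} (hij : i < j) {U : Finset (Fin k)} (hU : U ∈ Cl k Δ i j)
    {m : Fin k} (hm : m ∈ U) : Good k Δ (m, U) := by
  have hU' := (mem_Cl k Δ).1 hU
  refine ⟨hm, ?_, hU'.2.2.2⟩
  have : ({i, j} : Finset (Fin k)) ⊆ U := by
    intro x hx
    rw [mem_insert, mem_singleton] at hx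
    rcases hx with rfl | rfl
    · exact hU'.1
    · exact hU'.2.1
  have h3 := card_le_card this
  rwa [card_pair hij.ne] at h3

lemma eq_pair_of_card {i j : Fin k} (hij : i < j) {U : Finset (Fin k)}
    (hU : U ∈ Cl k Δ i j) (hc : ¬ 3 ≤ U.card) : U = {i, j} := by
  have hU' := (mem_Cl k Δ).1 hU
  symm
  apply Finset.eq_of_subset_of_card_le
  · intro x hx
    rw [mem_insert, mem_singleton] at hx
    rcases hx with rfl | rfl
    · exact hU'.1
    · exact hU'.2.1
  · rw [card_pair hij.ne]; omega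

lemma pow_step (hΔ : 1 ≤ Δ) {z o i j : Fin k} (hij : i < j) (n : ℕ) :
    ((g k Δ i j) ^ n) {i, j} ∈ Cl k Δ i j ∧
      Rch k Δ z o (i, {i, j}) (i, ((g k Δ i j) ^ n) {i, j}) := by
  induction n with
  | zero =>
    simp only [pow_zero, Equiv.Perm.coe_one, id_eq]
    exact ⟨pair_mem_Cl hΔ hij, Rch.refl (good_of_Cl hij (pair_mem_Cl hΔ hij) (by simp))⟩
  | succ n ih =>
    obtain ⟨ih1, ih2⟩ := ih
    have hs : ((g k Δ i j) ^ (n + 1)) {i, j} = g k Δ i j (((g k Δ i j) ^ n) {i, j}) := by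
      rw [pow_succ', Equiv.Perm.mul_apply]
    set U := ((g k Δ i j) ^ n) {i, j} with hU
    have hU1 : g k Δ i j U ∈ Cl k Δ i j := (g_mem k Δ).2 ih1
    rw [hs]
    refine ⟨hU1, ?_⟩
    have hU' := (mem_Cl k Δ).1 ih1
    have hU1' := (mem_Cl k Δ).1 hU1
    have hstep : Rch k Δ z o (i, U) (j, g k Δ i j U) :=
      Rch.of_adj (good_of_Cl hij ih1 hU'.1) (good_of_Cl hij hU1 hU1'.2.1)
        (Or.inl ⟨hij, hU'.2.1, rfl⟩)
    by_cases hc : 3 ≤ (g k Δ i j U).card
    · exact (ih2.trans hstep).trans (cluster hc hU1'.2.2.2 hU1'.2.1 hU1'.1)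
    · rw [eq_pair_of_card hij hU1 hc]
      exact Rch.refl (good_of_Cl hij (pair_mem_Cl hΔ hij) (by simp))

lemma comp (hΔ : 1 ≤ Δ) {z o i j : Fin k} (hij : i < j) {U : Finset (Fin k)}
    (hU : U ∈ Cl k Δ i j) {m : Fin k} (hm : m ∈ U) : Rch k Δ z o (i, {i, j}) (m, U) := by
  have key : ∀ U' ∈ Cl k Δ i j, Rch k Δ z o (i, {i, j}) (i, U') := by
    intro U' hU'
    obtain ⟨n, -, hn⟩ := (g_cycle k Δ i j).exists_pow_eq (pair_mem_Cl hΔ hij) hU'
    rw [← hn]
    exact (pow_step hΔ hij n).2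
  have hU' := (mem_Cl k Δ).1 hU
  by_cases hc : 3 ≤ U.card
  · exact (key U hU).trans (cluster hc hU'.2.2.2 hU'.1 hm)
  · have hUeq := eq_pair_of_card hij hU hc
    have hm' := hm
    rw [hUeq, mem_insert, mem_singleton] at hm'
    rcases hm' with rfl | rfl
    · exact key U hU
    · -- `m = j`
      set U' := (g k Δ i m).symm U with hU'def
      have h1 : U' ∈ Cl k Δ i m := by
        rw [← g_mem, hU'def, Equiv.apply_symm_apply]; exact hU
      have h2 := (mem_Cl k Δ).1 h1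
      refine (key U' h1).trans (Rch.of_adj (good_of_Cl hij h1 h2.1) (good_of_Cl hij hU hm)
        (Or.inl ⟨hij, h2.2.1, ?_⟩))
      simp [hU'def]

lemma triple_mem_Cl (hΔ : 2 ≤ Δ) {a b c : Fin k} (hab : a < b) (hbc : b < c) :
    ({a, b, c} : Finset (Fin k)) ∈ Cl k Δ a b := by
  rw [mem_Cl]
  refine ⟨by simp, by simp, ?_, by rw [card3 k hab hbc]; omega⟩
  intro x hx
  rw [mem_insert, mem_insert, mem_singleton] at hx
  rcases hx with h | h | h
  · exact Or.inl h
  · exact Or.inr h.ge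
  · exact Or.inr (by rw [h]; exact hbc.le)

lemma link0 (hΔ : 2 ≤ Δ) {z o : Fin k} (hzo : z < o) (ho : ∀ i, i ≠ z → o ≤ i) {j : Fin k}
    (hj : z < j) : Rch k Δ z o (z, {z, o}) (z, {z, j}) := by
  rcases eq_or_lt_of_le (ho j hj.ne') with h | h
  · subst h
    exact Rch.refl (good_of_Cl hzo (pair_mem_Cl (by omega) hzo) (by simp))
  · have h1 := comp (by omega : 1 ≤ Δ) (z := z) (o := o) hzo (triple_mem_Cl hΔ hzo h)
      (show z ∈ ({z, o, j} : Finset (Fin k)) by simp)
    have h2 := comp (by omega : 1 ≤ Δ) (z := z) (o := o) hj (pair_mem_Cl (by omega) hj)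
      (show j ∈ ({z, j} : Finset (Fin k)) by simp)
    have h3 : Rch k Δ z o (z, {z, o, j}) (j, {z, j}) :=
      Rch.of_adj (good_of_Cl hzo (triple_mem_Cl hΔ hzo h) (by simp))
        (good_of_Cl hj (pair_mem_Cl (by omega) hj) (by simp))
        (Or.inr (Or.inr (Or.inr (Or.inr (Or.inl ⟨rfl, hzo, h, rfl, rfl⟩)))))
    exact (h1.trans h3).trans h2.symm

lemma link (hΔ : 2 ≤ Δ) {z o : Fin k} (hz : ∀ i, z ≤ i) (hzo : z < o)
    (ho : ∀ i, i ≠ z → o ≤ i) {i j : Fin k} (hij : i < j) :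
    Rch k Δ z o (z, {z, o}) (i, {i, j}) := by
  by_cases hiz : i = z
  · subst hiz
    exact link0 hΔ hzo ho hij
  · have hzi : z < i := lt_of_le_of_ne (hz i) (Ne.symm hiz)
    have h0 := link0 hΔ hzo ho hzi
    have h1 := comp (by omega : 1 ≤ Δ) (z := z) (o := o) hzi (triple_mem_Cl hΔ hzi hij)
      (show i ∈ ({z, i, j} : Finset (Fin k)) by simp)
    have h2 := comp (by omega : 1 ≤ Δ) (z := z) (o := o) hij (pair_mem_Cl (by omega) hij)
      (show j ∈ ({i, j} : Finset (Fin k)) by simp)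
    have h3 : Rch k Δ z o (i, {z, i, j}) (j, {i, j}) :=
      Rch.of_adj (good_of_Cl hzi (triple_mem_Cl hΔ hzi hij) (by simp))
        (good_of_Cl hij (pair_mem_Cl (by omega) hij) (by simp))
        (Or.inr (Or.inr (Or.inl ⟨hzi, hij, rfl, rfl⟩)))
    exact ((h0.trans h1).trans h3).trans h2.symm

lemma all_reach (hΔ : 2 ≤ Δ) {z o : Fin k} (hz : ∀ i, z ≤ i) (hzo : z < o)
    (ho : ∀ i, i ≠ z → o ≤ i) {x : Fin k × Finset (Fin k)} (hx : Good k Δ x) :
    Rch k Δ z o (z, {z, o}) x := by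
  obtain ⟨m, U⟩ := x
  obtain ⟨hm, h2, hc⟩ := hx
  simp only at hm h2 hc
  have hne : U.Nonempty := ⟨m, hm⟩
  set i := U.min' hne with hi
  have hiU : i ∈ U := U.min'_mem hne
  have hne2 : (U.erase i).Nonempty := by
    rw [← card_pos, card_erase_of_mem hiU]; omega
  set j := (U.erase i).min' hne2 with hj
  have hjU : j ∈ U.erase i := (U.erase i).min'_mem hne2
  rw [mem_erase] at hjU
  have hij : i < j := lt_of_le_of_ne (U.min'_le j hjU.2) (Ne.symm hjU.1)
  have hU : U ∈ Cl k Δ i j := by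
    rw [mem_Cl]
    refine ⟨hiU, hjU.2, fun x hx => ?_, hc⟩
    by_cases hxi : x = i
    · exact Or.inl hxi
    · exact Or.inr ((U.erase i).min'_le x (by rw [mem_erase]; exact ⟨hxi, hx⟩))
  exact (link hΔ hz hzo ho hij).trans (comp (by omega) hij hU hm)

/-! ## The theorem -/

open Classical in
lemma card_vertices (k Δ : ℕ) :
    Fintype.card {x : Fin k × Finset (Fin k) // Good k Δ x} = B k Δ := by
  rw [← card_types, Fintype.card_subtype]
  refine Finset.card_bij' (fun x _ => (x.1, x.2.erase x.1)) (fun x _ => (x.1, insert x.1 x.2))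
    ?_ ?_ ?_ ?_
  · rintro ⟨i, U⟩ h
    simp only [mem_filter, mem_univ, true_and, Good, types] at h ⊢
    rw [card_erase_of_mem h.1]
    exact ⟨by simp, by omega, by omega⟩
  · rintro ⟨i, S⟩ h
    simp only [mem_filter, mem_univ, true_and, Good, types] at h ⊢
    rw [card_insert_of_notMem h.1]
    exact ⟨by simp, by omega, by omega⟩
  · rintro ⟨i, U⟩ h
    simp only [mem_filter, mem_univ, true_and, Good] at h ⊢
    rw [insert_erase h.1]
  · rintro ⟨i, S⟩ h
    simp only [mem_filter, mem_univ, true_and, types] at h ⊢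
    rw [erase_insert h.1]

/-- The upper bound on the order, for connected graphs with at least two vertices. -/
lemma order_le {V : Type} [Fintype V] [Nontrivial V] (G : SimpleGraph V) [DecidableRel G.Adj]
    (hG : G.Connected) {Δ : ℕ} (hΔ : G.maxDegree ≤ Δ) {m : ℕ} (c : V → Fin m)
    (hc : IsNLColouring G c) : Fintype.card V ≤ B m Δ := by
  classical
  rw [← card_types, ← Finset.card_univ]
  refine Finset.card_le_card_of_injOn (fun v => (c v, (G.neighborFinset v).image c)) ?_ ?_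
  · intro v _
    simp only [types, coe_filter, mem_univ, true_and, Set.mem_ofPred_eq]
    refine ⟨?_, ?_, ?_⟩
    · rw [mem_image]
      rintro ⟨w, hw, hcw⟩
      rw [SimpleGraph.mem_neighborFinset] at hw
      exact hc.2.1 v w hw hcw.symm
    · have h1 := hG.preconnected.degree_pos_of_nontrivial v
      have h2 : (G.neighborFinset v).Nonempty := card_pos.1 h1
      exact card_pos.2 (h2.image c)
    · exact (card_image_le.trans (G.degree_le_maxDegree v)).trans hΔ
  · intro u _ v _ huv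
    simp only [Prod.mk.injEq] at huv
    by_contra hne
    refine hc.2.2 u v hne huv.1 ?_
    have h1 := congrArg (fun s : Finset (Fin m) => (s : Set (Fin m))) huv.2
    simpa using h1

/-- For all `3 ≤ Δ < k` the bound is attained. -/
theorem result (k Δ : ℕ) (hΔ : 3 ≤ Δ) (hk : Δ + 1 ≤ k) :
    ∃ (V : Type) (_ : Fintype V) (G : SimpleGraph V) (_ : DecidableRel G.Adj),
      G.Connected ∧ nlChromaticNumber G = k ∧ G.maxDegree = Δ ∧ Fintype.card V = B k Δ := by
  classical
  let z : Fin k := ⟨0, by omega⟩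
  let o : Fin k := ⟨1, by omega⟩
  have hz : ∀ i : Fin k, z ≤ i := fun i => Nat.zero_le _
  have hzo : z < o := Nat.zero_lt_one
  have ho : ∀ i : Fin k, i ≠ z → o ≤ i := by
    intro i hi
    have : (i : ℕ) ≠ 0 := fun h => hi (Fin.ext h)
    change 1 ≤ (i : ℕ)
    omega
  let V := {x : Fin k × Finset (Fin k) // Good k Δ x}
  let G : SimpleGraph V := Gr k Δ z o
  have hroot : Good k Δ (z, {z, o}) :=
    good_of_Cl hzo (pair_mem_Cl (by omega) hzo) (by simp)
  have hconn : G.Connected := by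
    rw [SimpleGraph.connected_iff_exists_forall_reachable]
    refine ⟨⟨(z, {z, o}), hroot⟩, ?_⟩
    rintro ⟨x, hx⟩
    obtain ⟨_, _, h⟩ := all_reach (by omega : 2 ≤ Δ) hz hzo ho hx
    exact h
  have hmaxle : G.maxDegree ≤ Δ :=
    SimpleGraph.maxDegree_le_of_forall_degree_le _ _ fun x => degree_le k Δ hΔ x
  have hmax : G.maxDegree = Δ := by
    refine le_antisymm hmaxle ?_
    obtain ⟨U, hU, hUc⟩ : ∃ U : Finset (Fin k), z ∈ U ∧ U.card = Δ + 1 := by
      obtain ⟨U, h1, -, h3⟩ := Finset.exists_subsuperset_card_eq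
        (s := ({z} : Finset (Fin k))) (t := univ) (n := Δ + 1) (subset_univ _)
        (by simp) (by rw [card_univ, Fintype.card_fin]; exact hk)
      exact ⟨U, h1 (mem_singleton_self z), h3⟩
    have h1 := le_degree k Δ (z := z) (o := o) ⟨(z, U), hU, by simp only; omega, by
      simp only; omega⟩
    have h2 := G.degree_le_maxDegree ⟨(z, U), hU, by simp only; omega, by simp only; omega⟩
    have h3 : Δ ≤ U.card - 1 := by omega
    exact (h3.trans h1).trans h2
  have hcol : IsNLColouring G (fun x : V => x.1.1) := by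
    refine ⟨?_, fun u v h => adj_ne k Δ h, ?_⟩
    · intro i
      by_cases hi : i = z
      · exact ⟨⟨(z, {z, o}), hroot⟩, hi.symm⟩
      · have hzi : z < i := lt_of_le_of_ne (hz i) (Ne.symm hi)
        exact ⟨⟨(i, {z, i}), good_of_Cl hzi (pair_mem_Cl (by omega) hzi) (by simp)⟩, rfl⟩
    · intro u v huv hc heq
      rw [colours_eq k Δ (z := z) (o := o) u, colours_eq k Δ (z := z) (o := o) v] at heq
      have h1 := Finset.coe_injective heq
      apply huv
      refine Subtype.ext (Prod.ext hc ?_)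
      rw [← insert_erase u.2.1, ← insert_erase v.2.1, h1]
      rw [show u.1.1 = v.1.1 from hc]
  have hcard : Fintype.card V = B k Δ := card_vertices k Δ
  have hnt : Nontrivial V := by
    refine ⟨⟨(z, {z, o}), hroot⟩, ⟨(o, {z, o}),
      good_of_Cl hzo (pair_mem_Cl (by omega) hzo) (by simp)⟩, ?_⟩
    intro h
    have := congrArg (fun x : V => x.1.1) h
    exact hzo.ne this
  refine ⟨V, inferInstance, G, inferInstance, hconn, ?_, hmax, hcard⟩
  apply le_antisymm
  · exact Nat.sInf_le ⟨_, hcol⟩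
  · refine le_csInf ⟨k, _, hcol⟩ ?_
    rintro m ⟨c, hc⟩
    by_contra hmk
    push Not at hmk
    have h1 := order_le G hconn hmaxle c hc
    rw [hcard] at h1
    have h2 := B_strict hmk (by omega : 1 ≤ Δ) (by omega : 2 ≤ k)
    omega

end Pool.Agent.Results.MP_3eb9f6_co.ExtremalOrder
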